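import Pool.Agent.Lib.MP_569914_ag.Wronskian

/-!
# MP_569914_ag: curves, their Riemann-Roch spaces, and curves on the symmetric square
-/

namespace Pool.Agent.MP_569914

open TensorProduct

/-- A smooth projective curve over an algebraically closed field `k` of characteristic `0`, given by
its function field `K`, its points and its genus. Only the properties used are recorded. -/
structure Curve where
  /-- the ground field -/
  k : Type
  /-- the function field -/
  K : Type
  /-- `k` is a field -/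
  [fk : Field k]
  /-- `K` is a field -/
  [fK : Field K]
  /-- `K` contains `k` -/
  [alg : Algebra k K]
  /-- `k` is algebraically closed -/
  [closed : IsAlgClosed k]
  /-- `k` has characteristic zero -/
  [char : CharZero k]
  /-- the derivation `d/dt` for a separating variable `t` -/
  der : Derivation k K K
  /-- its constants are the elements of `k` -/
  der_const : ∀ x, der x = 0 → ∃ c, algebraMap k K c = x
  /-- the points of the curve -/
  Pt : Type
  /-- the order of a rational function at a point -/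
  ord : Pt → AddValuation K (WithTop ℤ)
  /-- constants have no poles -/
  ord_const : ∀ p c, 0 ≤ ord p (algebraMap k K c)
  /-- the divisor of a nonzero rational function is finite, of degree `0` -/
  principal : ∀ f : K, f ≠ 0 → ∃ E : Pt →₀ ℤ, (∀ p, ord p f = ((E p : ℤ) : WithTop ℤ)) ∧
    (E.sum fun _ m => m) = 0
  /-- the genus -/
  g : ℕ

attribute [instance] Curve.fk Curve.fK Curve.alg Curve.closed Curve.char

namespace Curve

variable (C : Curve)

/-- Divisors. -/
abbrev Div : Type := C.Pt →₀ ℤ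

/-- The degree of a divisor. -/
noncomputable def deg (E : C.Div) : ℤ := E.sum fun _ m => m

/-- The Riemann-Roch space of a divisor `E`: `f` with `div f + E ≥ 0`, or `f = 0`. -/
def RR (E : C.Div) : Submodule C.k C.K where
  carrier := {f | ∀ p, ((-(E p) : ℤ) : WithTop ℤ) ≤ C.ord p f}
  add_mem' hf hg p := le_trans (le_min (hf p) (hg p)) ((C.ord p).map_add _ _)
  zero_mem' p := by
    show ((-(E p) : ℤ) : WithTop ℤ) ≤ C.ord p 0
    rw [AddValuation.map_zero]
    exact le_top
  smul_mem' c f hf p := by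
    show ((-(E p) : ℤ) : WithTop ℤ) ≤ C.ord p (c • f)
    rw [Algebra.smul_def, AddValuation.map_mul]
    exact le_trans (hf p) (le_add_of_nonneg_left (C.ord_const p c))

/-- The Brill-Noether property: if `h⁰(E) ≥ r + 1` then `(r + 1)(g - deg E + r) ≤ g`, that is,
`ρ(g, r, deg E) ≥ 0`. It holds for a general curve (Griffiths-Harris). -/
def BrillNoether : Prop :=
  ∀ (E : C.Div) (r : ℕ) (v : Fin (r + 1) → C.K), LinearIndependent C.k v →
    (∀ i, v i ∈ C.RR E) → ((r : ℤ) + 1) * (C.g - C.deg E + r) ≤ C.g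

/-- The ring `K ⊗[k] K`: rational functions on `C × C`. -/
def KK : Type := C.K ⊗[C.k] C.K

noncomputable instance ringKK : CommRing C.KK := (inferInstance : CommRing (C.K ⊗[C.k] C.K))

noncomputable instance moduleKK : Module C.k C.KK := (inferInstance : Module C.k (C.K ⊗[C.k] C.K))

/-- The tensor `a ⊗ c`: the function `(p, q) ↦ a(p) c(q)`. -/
noncomputable def tens (a c : C.K) : C.KK := a ⊗ₜ[C.k] c

/-- The ideal of the diagonal: the kernel of the multiplication `K ⊗[k] K → K`. -/
noncomputable def diag : Ideal C.KK := diagIdeal C.k C.K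

/-- The symmetric functions, `F(p, q) = F(q, p)`: the span of the `a ⊗ c + c ⊗ a`. -/
noncomputable def symm : Submodule C.k C.KK :=
  Submodule.span C.k {F | ∃ a c : C.K, F = C.tens a c + C.tens c a}

/-- The antisymmetric functions, `F(p, q) = -F(q, p)`: the span of the `a ⊗ c - c ⊗ a`. -/
noncomputable def alt : Submodule C.k C.KK :=
  Submodule.span C.k {F | ∃ a c : C.K, F = C.tens a c - C.tens c a}

/-- The sections of `O(E) ⊠ O(E)` on `C × C`: the image of `L(E) ⊗ L(E)` in `K ⊗[k] K`. -/
noncomputable def sections (E : C.Div) : Submodule C.k C.KK :=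
  Submodule.span C.k {F | ∃ a ∈ C.RR E, ∃ c ∈ C.RR E, F = C.tens a c}

/-- There are a divisor `E` of degree `d` and a nonzero section of `O(E) ⊠ O(E)` on `C × C` which
vanishes to order at least `b` along the diagonal and is symmetric or antisymmetric. Geometrically:
some effective divisor on `C × C`, invariant under the swap, has class `d (f₁ + f₂) - b Δ`. -/
def HasSection (d : ℤ) (b : ℕ) : Prop :=
  ∃ E : C.Div, C.deg E = d ∧ ∃ F : C.KK, F ≠ 0 ∧ F ∈ C.sections E ∧ F ∈ C.diag ^ b ∧
    (F ∈ C.symm ∨ F ∈ C.alt)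

/-- A section of `O(E) ⊠ O(E)` comes from `L(E) ⊗ L(E)`. -/
theorem exists_of_mem_sections (E : C.Div) (F : C.KK) (hF : F ∈ C.sections E) :
    ∃ t : C.RR E ⊗[C.k] C.RR E, TensorProduct.map (C.RR E).subtype (C.RR E).subtype t = F := by
  refine Submodule.span_induction ?_ ?_ ?_ ?_ hF
  · rintro x ⟨a, ha, c, hc, rfl⟩
    exact ⟨⟨a, ha⟩ ⊗ₜ ⟨c, hc⟩, rfl⟩
  · exact ⟨0, map_zero _⟩
  · rintro x y _ _ ⟨t, ht⟩ ⟨u, hu⟩
    refine ⟨t + u, ?_⟩
    rw [map_add, ht, hu]
    rfl
  · rintro c x _ ⟨t, ht⟩
    refine ⟨c • t, ?_⟩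
    rw [map_smul, ht]
    rfl

/-- The intersection number of `α x + β (δ/2)` and `α' x + β' (δ/2)` on the symmetric square:
`x² = 1`, `x · δ/2 = 1`, `(δ/2)² = 1 - g`. -/
def inter (c c' : ℤ × ℤ) : ℤ :=
  c.1 * c'.1 + (c.1 * c'.2 + c.2 * c'.1) + (1 - (C.g : ℤ)) * (c.2 * c'.2)

/-- The class of an irreducible curve `Γ ≠ Δ` on the symmetric square `C(2)` of a curve `C` whose
`NS(C(2))` is generated by `x` and `δ/2`. -/
structure CurveOnSquare where
  /-- the coefficient of `x` -/
  α : ℤ
  /-- minus the coefficient of `δ/2` -/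
  b : ℤ
  /-- `Γ · Δ ≥ 0`, as `Γ ≠ Δ` -/
  meets_diagonal : 0 ≤ C.inter (α, -b) (0, 2)
  /-- the inverse image of `Γ` in `C × C`, an effective divisor of class `α (f₁ + f₂) - b Δ` -/
  sect : ∀ m : ℕ, b = m → C.HasSection α m

/-- The self-intersection of `Γ`. -/
def CurveOnSquare.selfInter {C : Curve} (Γ : C.CurveOnSquare) : ℤ :=
  C.inter (Γ.α, -Γ.b) (Γ.α, -Γ.b)

/-- The number `n = Γ · x`; the class of `Γ` is `(n + b) x - b (δ/2)`. -/
def CurveOnSquare.n {C : Curve} (Γ : C.CurveOnSquare) : ℤ :=
  C.inter (Γ.α, -Γ.b) (1, 0)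

/-- The main bound: a section vanishing to order `b` along the diagonal forces
`(b + 1)(g - d + b) ≤ g`. -/
theorem bound_of_section (h : C.BrillNoether) (d : ℤ) (b : ℕ) (hs : C.HasSection d b) :
    ((b : ℤ) + 1) * (C.g - d + b) ≤ C.g := by
  classical
  obtain ⟨E₂, hE₂, F, hF, hFs, hFb, -⟩ := hs
  obtain ⟨t, ht'⟩ := C.exists_of_mem_sections E₂ F hFs
  let B := Module.Basis.ofVectorSpace C.k (C.RR E₂)
  let e := TensorProduct.equivFinsuppOfBasisRight (M := C.RR E₂) B
  have ht : t ≠ 0 := by
    rintro rfl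
    rw [map_zero] at ht'
    exact hF ht'.symm
  let φ := e t
  have hφ : φ ≠ 0 := fun h0 => ht (by
    have : e t = 0 := h0
    simpa using this)
  have htφ : t = φ.sum fun i m => m ⊗ₜ[C.k] B i := by
    have := TensorProduct.equivFinsuppOfBasisRight_symm_apply (M := C.RR E₂) B φ
    rw [← this]
    exact (e.symm_apply_apply t).symm
  let v : _ → C.K := fun i => ((B i : C.RR E₂) : C.K)
  have hv : LinearIndependent C.k v :=
    B.linearIndependent.map' (C.RR E₂).subtype (Submodule.ker_subtype _)
  have hFsum : TensorProduct.map (C.RR E₂).subtype (C.RR E₂).subtype t =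
      ∑ i ∈ φ.support, (φ i : C.K) ⊗ₜ[C.k] v i := by
    conv_lhs => rw [htφ]
    rw [Finsupp.sum, map_sum]
    rfl
  replace hFb : F ∈ (diagIdeal C.k C.K) ^ b := hFb
  rw [← ht', hFsum] at hFb
  have hcard := card_gt C.der C.der_const v hv φ.support (Finsupp.support_nonempty_iff.2 hφ)
    (fun i => (φ i : C.K)) (fun i hi => by
      have := Finsupp.mem_support_iff.1 hi
      simpa using this) b hFb
  obtain ⟨s, hs, hcs⟩ := Finset.exists_subset_card_eq (show b + 1 ≤ φ.support.card from hcard)
  have hequiv : Nonempty (Fin (b + 1) ≃ s) := ⟨(Finset.equivFinOfCardEq hcs).symm⟩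
  obtain ⟨f⟩ := hequiv
  have := h E₂ b (fun j => v (f j)) (hv.comp (fun j => (f j : _)) (fun x y hxy => by
    exact f.injective (Subtype.ext hxy))) (fun j => (B (f j)).2)
  rw [hE₂] at this
  exact this

end Curve

end Pool.Agent.MP_569914
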