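import Mathlib

/-!
# MP_569914_ag: sections vanishing along the diagonal

Vanishing along the diagonal of `C × C` is expressed in `K ⊗[k] K`, `K` the function field of `C`,
by the powers of the kernel of the multiplication `K ⊗[k] K → K`.
-/

namespace Pool.Agent.MP_569914

open TensorProduct

variable {k K : Type} [Field k] [Field K] [Algebra k K]

/-- The ideal of the diagonal: the kernel of the multiplication `K ⊗[k] K → K`. -/
def diagIdeal (k K : Type) [Field k] [Field K] [Algebra k K] : Ideal (K ⊗[k] K) :=
  RingHom.ker (Algebra.TensorProduct.lmul' k (S := K))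

/-- A Wronskian lemma: if the constants of `D` are the elements of `k` and the `v i` are linearly
independent over `k`, a relation between the first `s.card` derivatives is trivial. -/
theorem wronskian (D : Derivation k K K) (hD : ∀ x, D x = 0 → ∃ c, algebraMap k K c = x)
    {ι : Type} (v : ι → K) (hv : LinearIndependent k v) :
    ∀ (m : ℕ) (s : Finset ι), s.card = m → ∀ a : ι → K,
      (∀ j < m, ∑ i ∈ s, a i * (D : K → K)^[j] (v i) = 0) → ∀ i ∈ s, a i = 0 := by
  classical
  intro m
  induction m with
  | zero =>
    intro s hs a _ i hi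
    rw [Finset.card_eq_zero] at hs
    subst hs
    simp at hi
  | succ m ih =>
    intro s hs a ha i0 hi0
    by_contra hne
    have hs' : (s.erase i0).card = m := by
      rw [Finset.card_erase_of_mem hi0, hs]; rfl
    have hc : ∀ j < m + 1, ∑ i ∈ s, a i / a i0 * (D : K → K)^[j] (v i) = 0 := by
      intro j hj
      have := ha j hj
      calc ∑ i ∈ s, a i / a i0 * (D : K → K)^[j] (v i)
          = (a i0)⁻¹ * ∑ i ∈ s, a i * (D : K → K)^[j] (v i) := by
            rw [Finset.mul_sum]
            refine Finset.sum_congr rfl fun i _ => ?_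
            ring
        _ = 0 := by rw [this, mul_zero]
    have hd : ∀ j < m, ∑ i ∈ s.erase i0, D (a i / a i0) * (D : K → K)^[j] (v i) = 0 := by
      intro j hj
      have h1 := congrArg D (hc j (by omega))
      rw [map_sum, map_zero] at h1
      have h2 := hc (j + 1) (by omega)
      have h3 : ∑ i ∈ s, D (a i / a i0) * (D : K → K)^[j] (v i) = 0 := by
        have h4 : ∑ i ∈ s, D (a i / a i0 * (D : K → K)^[j] (v i)) =
            ∑ i ∈ s, a i / a i0 * (D : K → K)^[j + 1] (v i) +
            ∑ i ∈ s, D (a i / a i0) * (D : K → K)^[j] (v i) := by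
          rw [← Finset.sum_add_distrib]
          refine Finset.sum_congr rfl fun i _ => ?_
          rw [Derivation.leibniz, Function.iterate_succ_apply']
          simp only [smul_eq_mul]
          ring
        rw [h4, h2, zero_add] at h1
        exact h1
      rw [← Finset.add_sum_erase s _ hi0, div_self hne, Derivation.map_one_eq_zero, zero_mul,
        zero_add] at h3
      exact h3
    have he := ih (s.erase i0) hs' (fun i => D (a i / a i0)) hd
    have hcst : ∀ i : ι, ∃ c : k, i ∈ s → algebraMap k K c = a i / a i0 := by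
      intro i
      by_cases hi : i ∈ s
      · by_cases hii : i = i0
        · exact ⟨1, fun _ => by rw [map_one, hii, div_self hne]⟩
        · obtain ⟨c, hc'⟩ := hD _ (he i (Finset.mem_erase.2 ⟨hii, hi⟩))
          exact ⟨c, fun _ => hc'⟩
      · exact ⟨0, fun h => absurd h hi⟩
    choose c hc' using hcst
    have h0 : ∑ i ∈ s, c i • v i = 0 := by
      have := hc 0 (by omega)
      rw [← this]
      refine Finset.sum_congr rfl fun i hi => ?_
      rw [Algebra.smul_def, hc' i hi]
      rfl
    have h1 := linearIndependent_iff'.1 hv s c h0 i0 hi0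
    have h2 := hc' i0 hi0
    rw [h1, map_zero, div_self hne] at h2
    exact one_ne_zero h2.symm

/-- The derivation `1 ⊗ D` of `K ⊗[k] K`. -/
noncomputable def dRight (D : Derivation k K K) : K ⊗[k] K →ₗ[k] K ⊗[k] K :=
  LinearMap.lTensor K (D : K →ₗ[k] K)

theorem dRight_tmul (D : Derivation k K K) (x y : K) : dRight D (x ⊗ₜ[k] y) = x ⊗ₜ[k] D y := rfl

theorem dRight_mul (D : Derivation k K K) (z w : K ⊗[k] K) :
    dRight D (z * w) = z * dRight D w + dRight D z * w := by
  induction z using TensorProduct.induction_on with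
  | zero => simp
  | add z1 z2 h1 h2 =>
    rw [add_mul, map_add, h1, h2, map_add]
    ring
  | tmul a b =>
    induction w using TensorProduct.induction_on with
    | zero => simp
    | add w1 w2 h1 h2 =>
      rw [mul_add, map_add, h1, h2, map_add]
      ring
    | tmul x y =>
      rw [Algebra.TensorProduct.tmul_mul_tmul, dRight_tmul, dRight_tmul, dRight_tmul,
        Derivation.leibniz, Algebra.TensorProduct.tmul_mul_tmul,
        Algebra.TensorProduct.tmul_mul_tmul, TensorProduct.tmul_add]
      simp only [smul_eq_mul]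
      rw [mul_comm y (D b)]

theorem dRight_pow (D : Derivation k K K) (b : ℕ) :
    ∀ z ∈ (diagIdeal k K) ^ (b + 1), dRight D z ∈ (diagIdeal k K) ^ b := by
  induction b with
  | zero => intro z _; simp
  | succ b ih =>
    intro z hz
    rw [pow_succ] at hz
    refine Submodule.mul_induction_on hz ?_ ?_
    · intro x hx y hy
      rw [dRight_mul]
      refine Ideal.add_mem _ ?_ ?_
      · exact Ideal.mul_mem_right _ _ hx
      · rw [pow_succ]
        exact Ideal.mul_mem_mul (ih x hx) hy
    · intro x y hx hy
      rw [map_add]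
      exact Ideal.add_mem _ hx hy

theorem dRight_iterate (D : Derivation k K K) (j : ℕ) :
    ∀ b, j < b → ∀ z ∈ (diagIdeal k K) ^ b, (dRight D)^[j] z ∈ diagIdeal k K := by
  induction j with
  | zero =>
    intro b hb z hz
    exact Ideal.pow_le_self (by omega) hz
  | succ j ih =>
    intro b hb z hz
    obtain ⟨b', rfl⟩ : ∃ b', b = b' + 1 := ⟨b - 1, by omega⟩
    rw [Function.iterate_succ_apply]
    exact ih b' (by omega) _ (dRight_pow D b' z hz)

/-- If a nonzero sum of tensors `a i ⊗ v i`, the `v i` linearly independent and all `a i ≠ 0`,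
vanishes to order `b` along the diagonal, then it has more than `b` terms. -/
theorem card_gt (D : Derivation k K K) (hD : ∀ x, D x = 0 → ∃ c, algebraMap k K c = x)
    {ι : Type} (v : ι → K) (hv : LinearIndependent k v) (s : Finset ι) (hs : s.Nonempty)
    (a : ι → K) (ha : ∀ i ∈ s, a i ≠ 0) (b : ℕ)
    (h : ∑ i ∈ s, a i ⊗ₜ[k] v i ∈ (diagIdeal k K) ^ b) : b < s.card := by
  by_contra hlt
  obtain ⟨i0, hi0⟩ := hs
  refine ha i0 hi0 (wronskian D hD v hv s.card s rfl a ?_ i0 hi0)
  intro j hj
  have h1 := dRight_iterate D j b (by omega) _ h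
  have h2 : ∀ j : ℕ, (dRight D)^[j] (∑ i ∈ s, a i ⊗ₜ[k] v i) =
      ∑ i ∈ s, a i ⊗ₜ[k] ((D : K → K)^[j] (v i)) := by
    intro j
    induction j with
    | zero => rfl
    | succ j ihj =>
      rw [Function.iterate_succ_apply', ihj, map_sum]
      refine Finset.sum_congr rfl fun i _ => ?_
      rw [dRight_tmul, Function.iterate_succ_apply']
  rw [h2 j] at h1
  have h3 : Algebra.TensorProduct.lmul' k (S := K)
      (∑ i ∈ s, a i ⊗ₜ[k] ((D : K → K)^[j] (v i))) = 0 := h1
  rw [map_sum] at h3
  simpa [Algebra.TensorProduct.lmul'_apply_tmul] using h3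

end Pool.Agent.MP_569914
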